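import Pool.Agent.H3.FMS.Defs
import Pool.Agent.H3.FMS.Conv

/-!
# Classification of the flat metrics of MP_f23e48_gt
-/

set_option autoImplicit false

open Pool.MP_f23e48

namespace Pool.Agent.Results.MP_f23e48_gt.FlatMetrics

/-- A metric of the family is flat if and only if it is equivalent, under a projective change of
coordinates, to one on the list `NormalForm`, and everything on the list is in the family,
nondegenerate and flat. -/
theorem result :
    (∀ h : Met, NormalForm h → InFamily h ∧ Nondeg h ∧ Flat h) ∧
      ∀ g : Met, InFamily g → Nondeg g →
        (Flat g ↔ ∃ h : Met, NormalForm h ∧ Equivalent g h) :=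
  Conv.main

end Pool.Agent.Results.MP_f23e48_gt.FlatMetrics
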